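import Mathlib

set_option autoImplicit false

noncomputable section

namespace X112.DE

open MeasureTheory Filter Topology Set

/-- length of the first phase -/
def al : ℝ := Real.arsinh (√2 - 1)

/-- end of the second phase -/
def be : ℝ := al + √(4 - 2 * √2)

/-- the half period `arsinh (√2 - 1) + √(4 - 2√2) + π/2` -/
def T : ℝ := be + Real.pi / 2

theorem sq2 : √2 * √2 = 2 := Real.mul_self_sqrt (by norm_num)

theorem sq2_gt : 1 < √2 := by
  rw [Real.lt_sqrt (by norm_num)]; norm_num

theorem sq2_lt : √2 < 2 := by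
  rw [Real.sqrt_lt' (by norm_num)]; norm_num

theorem sinh_al : Real.sinh al = √2 - 1 := Real.sinh_arsinh _

theorem cosh_al : Real.cosh al = √(4 - 2 * √2) := by
  unfold al
  rw [Real.cosh_arsinh]
  congr 1
  have := sq2
  nlinarith

theorem al_pos : 0 < al := by
  unfold al
  rw [Real.arsinh_pos_iff]
  linarith [sq2_gt]

theorem al_lt : al < be := by
  unfold be
  have : 0 < √(4 - 2 * √2) := Real.sqrt_pos.2 (by linarith [sq2_lt])
  linarith

theorem be_lt : be < T := by unfold T; have := Real.pi_pos; linarith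

theorem T_pos : 0 < T := al_pos.trans (al_lt.trans be_lt)

/-- position inside the half period -/
def ps (t : ℝ) : ℝ := T * Int.fract (t / T)

/-- sign of the half period -/
def sg (t : ℝ) : ℝ := (-1 : ℝ) ^ ⌊t / T⌋

def f0 (u : ℝ) : ℝ := if u < al then Real.sinh u else if u < be then -1 else -Real.cos (u - be)

def f (t : ℝ) : ℝ := sg t * f0 (ps t)

def tau (t : ℝ) : ℝ := if ps t < al then 0 else if ps t < be then ps t + Real.pi / 2 else T

theorem ps_nonneg (t : ℝ) : 0 ≤ ps t := mul_nonneg T_pos.le (Int.fract_nonneg _)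

theorem ps_lt (t : ℝ) : ps t < T := by
  have := Int.fract_lt_one (t / T)
  have := T_pos
  unfold ps
  nlinarith

theorem eq_ps (t : ℝ) : t = ps t + ⌊t / T⌋ * T := by
  unfold ps
  have h := Int.fract_add_floor (t / T)
  have hT := T_pos.ne'
  have : t = T * (Int.fract (t / T) + ⌊t / T⌋) := by rw [h]; field_simp
  linarith

theorem ps_meas : Measurable ps := (measurable_fract.comp (measurable_id.div_const T)).const_mul T

theorem sg_meas : Measurable sg := by
  have h1 : Measurable (fun t : ℝ => ⌊t / T⌋) := Int.measurable_floor.comp (measurable_id.div_const T)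
  have h2 : Measurable (fun k : ℤ => (-1 : ℝ) ^ k) := measurable_from_top
  exact h2.comp h1

theorem f0_meas : Measurable f0 := by
  unfold f0
  refine Measurable.ite measurableSet_Iio Real.measurable_sinh ?_
  refine Measurable.ite measurableSet_Iio measurable_const ?_
  fun_prop

theorem f_meas : Measurable f := sg_meas.mul (f0_meas.comp ps_meas)

theorem tau_meas : Measurable tau := by
  unfold tau
  refine Measurable.ite (measurableSet_lt ps_meas measurable_const) measurable_const ?_
  refine Measurable.ite (measurableSet_lt ps_meas measurable_const) (ps_meas.add_const _)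
    measurable_const

theorem sg_abs (t : ℝ) : |sg t| = 1 := by
  unfold sg
  rw [abs_zpow]
  simp

theorem f_bd (t : ℝ) : ‖f t‖ ≤ 1 := by
  unfold f
  rw [norm_mul, Real.norm_eq_abs, Real.norm_eq_abs, sg_abs, one_mul]
  unfold f0
  split_ifs with h
  · rw [abs_of_nonneg (Real.sinh_nonneg_iff.2 (ps_nonneg t))]
    have h1 : Real.sinh (ps t) ≤ Real.sinh al := Real.sinh_le_sinh.2 h.le
    rw [sinh_al] at h1
    linarith [sq2_lt]
  · simp
  · rw [abs_neg]; exact Real.abs_cos_le_one _

theorem f_int (a b : ℝ) : IntervalIntegrable f volume a b := by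
  refine ⟨?_, ?_⟩
  · exact Measure.integrableOn_of_bounded (M := 1) (by simp) f_meas.aestronglyMeasurable
      (Eventually.of_forall f_bd)
  · exact Measure.integrableOn_of_bounded (M := 1) (by simp) f_meas.aestronglyMeasurable
      (Eventually.of_forall f_bd)

theorem floor_add (t : ℝ) : ⌊(t + T) / T⌋ = ⌊t / T⌋ + 1 := by
  have : (t + T) / T = t / T + 1 := by have := T_pos.ne'; field_simp
  rw [this, Int.floor_add_one]

theorem ps_add (t : ℝ) : ps (t + T) = ps t := by
  have : (t + T) / T = t / T + 1 := by have := T_pos.ne'; field_simp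
  unfold ps
  rw [this, Int.fract_add_one]

theorem sg_add (t : ℝ) : sg (t + T) = -sg t := by
  unfold sg
  rw [floor_add, zpow_add_one₀ (by norm_num)]
  ring

theorem f_add (t : ℝ) : f (t + T) = -f t := by
  unfold f
  rw [ps_add, sg_add]
  ring

theorem on_first (t : ℝ) (h0 : 0 ≤ t) (h1 : t < T) : sg t = 1 ∧ ps t = t := by
  have hT := T_pos
  have hfl : ⌊t / T⌋ = 0 := by
    rw [Int.floor_eq_zero_iff]
    exact ⟨by positivity, by rw [div_lt_one hT]; exact h1⟩
  refine ⟨?_, ?_⟩
  · unfold sg; rw [hfl]; simp
  · have := eq_ps t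
    rw [hfl] at this
    simp at this
    exact this.symm

theorem f_first (t : ℝ) (h0 : 0 ≤ t) (h1 : t < T) : f t = f0 t := by
  obtain ⟨a, b⟩ := on_first t h0 h1
  unfold f
  rw [a, b, one_mul]

theorem congr_Ioo {g h : ℝ → ℝ} {a b : ℝ} (hab : a ≤ b) (H : ∀ s ∈ Ioo a b, g s = h s) :
    ∫ s in a..b, g s = ∫ s in a..b, h s := by
  rw [intervalIntegral.integral_of_le hab, intervalIntegral.integral_of_le hab,
    integral_Ioc_eq_integral_Ioo, integral_Ioc_eq_integral_Ioo]
  exact setIntegral_congr_fun measurableSet_Ioo H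

/-- derivative of the solution -/
def v (t : ℝ) : ℝ := 1 + ∫ s in (0 : ℝ)..t, f s

/-- the solution -/
def x (t : ℝ) : ℝ := ∫ s in (0 : ℝ)..t, v s

theorem v1 (t : ℝ) (h0 : 0 ≤ t) (h1 : t ≤ al) : v t = Real.cosh t := by
  unfold v
  rw [congr_Ioo (h := fun s => Real.sinh s) h0 (fun s hs => by
    rw [f_first s hs.1.le (by linarith [hs.2, al_lt, be_lt])]
    unfold f0
    rw [if_pos (by linarith [hs.2])])]
  rw [intervalIntegral.integral_eq_sub_of_hasDerivAt (f := fun s => Real.cosh s)
    (fun s _ => Real.hasDerivAt_cosh s) (Real.continuous_sinh.intervalIntegrable _ _)]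
  simp

theorem v2 (t : ℝ) (h0 : al ≤ t) (h1 : t ≤ be) : v t = be - t := by
  have e := v1 al al_pos.le le_rfl
  rw [cosh_al] at e
  have hbe : be = al + √(4 - 2 * √2) := rfl
  unfold v at e ⊢
  rw [← intervalIntegral.integral_add_adjacent_intervals (f_int 0 al) (f_int al t),
    congr_Ioo (a := al) (h := fun _ => (-1 : ℝ)) h0 (fun s hs => by
      rw [f_first s (by linarith [hs.1, al_pos]) (by linarith [hs.2, be_lt])]
      unfold f0
      rw [if_neg (by linarith [hs.1]), if_pos (by linarith [hs.2])])]
  rw [intervalIntegral.integral_const, smul_eq_mul]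
  linarith

theorem v3 (t : ℝ) (h0 : be ≤ t) (h1 : t ≤ T) : v t = -Real.sin (t - be) := by
  have e := v2 be al_lt.le le_rfl
  unfold v at e ⊢
  rw [← intervalIntegral.integral_add_adjacent_intervals (f_int 0 be) (f_int be t),
    congr_Ioo (a := be) (h := fun s => -Real.cos (s - be)) h0 (fun s hs => by
      rw [f_first s (by linarith [hs.1, al_pos, al_lt]) (by linarith [hs.2])]
      unfold f0
      rw [if_neg (by linarith [hs.1, al_lt]), if_neg (by linarith [hs.1])])]
  rw [intervalIntegral.integral_neg, intervalIntegral.integral_comp_sub_right (fun s => Real.cos s),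
    integral_cos]
  simp only [sub_self, Real.sin_zero, sub_zero]
  linarith

theorem v_cont : Continuous v := by
  unfold v
  exact continuous_const.add (intervalIntegral.continuous_primitive (fun a b => f_int a b) 0)

theorem v_int (a b : ℝ) : IntervalIntegrable v volume a b := v_cont.intervalIntegrable a b

theorem x1 (t : ℝ) (h0 : 0 ≤ t) (h1 : t ≤ al) : x t = Real.sinh t := by
  unfold x
  rw [congr_Ioo (h := fun s => Real.cosh s) h0 (fun s hs => v1 s hs.1.le (by linarith [hs.2]))]
  rw [intervalIntegral.integral_eq_sub_of_hasDerivAt (f := fun s => Real.sinh s)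
    (fun s _ => Real.hasDerivAt_sinh s) (Real.continuous_cosh.intervalIntegrable _ _)]
  simp

theorem x2 : x be = 1 := by
  have e := x1 al al_pos.le le_rfl
  rw [sinh_al] at e
  have hs4 : √(4 - 2 * √2) * √(4 - 2 * √2) = 4 - 2 * √2 :=
    Real.mul_self_sqrt (by linarith [sq2_lt])
  unfold x at e ⊢
  rw [← intervalIntegral.integral_add_adjacent_intervals (v_int 0 al) (v_int al be),
    congr_Ioo (a := al) (h := fun s => be - s) al_lt.le
      (fun s hs => v2 s hs.1.le hs.2.le), e,
    intervalIntegral.integral_sub (by simp) (by simp), integral_id,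
    intervalIntegral.integral_const, smul_eq_mul]
  have hbe : be = al + √(4 - 2 * √2) := rfl
  rw [hbe]
  nlinarith

theorem x3 (t : ℝ) (h0 : be ≤ t) (h1 : t ≤ T) : x t = Real.cos (t - be) := by
  have e := x2
  unfold x at e ⊢
  rw [← intervalIntegral.integral_add_adjacent_intervals (v_int 0 be) (v_int be t),
    congr_Ioo (a := be) (h := fun s => -Real.sin (s - be)) h0
      (fun s hs => v3 s hs.1.le (by linarith [hs.2])), e,
    intervalIntegral.integral_neg, intervalIntegral.integral_comp_sub_right (fun s => Real.sin s),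
    integral_sin]
  simp

theorem vT : v T = -1 := by
  rw [v3 T be_lt.le le_rfl]
  unfold T
  rw [show be + Real.pi / 2 - be = Real.pi / 2 by ring, Real.sin_pi_div_two]

theorem xT : x T = 0 := by
  rw [x3 T be_lt.le le_rfl]
  unfold T
  rw [show be + Real.pi / 2 - be = Real.pi / 2 by ring, Real.cos_pi_div_two]

theorem v_add (t : ℝ) : v (t + T) = -v t := by
  have e := vT
  unfold v at e ⊢
  rw [← intervalIntegral.integral_add_adjacent_intervals (f_int 0 T) (f_int T (t + T))]
  have h1 : ∫ s in T..(t + T), f s = -∫ s in (0 : ℝ)..t, f s := by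
    have h2 := intervalIntegral.integral_comp_add_right (a := 0) (b := t) f T
    rw [zero_add] at h2
    rw [← h2]
    simp only [f_add]
    exact intervalIntegral.integral_neg
  rw [h1]
  linarith

theorem x_add (t : ℝ) : x (t + T) = -x t := by
  have e := xT
  unfold x at e ⊢
  rw [← intervalIntegral.integral_add_adjacent_intervals (v_int 0 T) (v_int T (t + T))]
  have h1 : ∫ s in T..(t + T), v s = -∫ s in (0 : ℝ)..t, v s := by
    have h2 := intervalIntegral.integral_comp_add_right (a := 0) (b := t) v T
    rw [zero_add] at h2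
    rw [← h2]
    simp only [v_add]
    exact intervalIntegral.integral_neg
  rw [h1]
  linarith

theorem x_int (t : ℝ) (k : ℤ) : x (t + k * T) = (-1 : ℝ) ^ k * x t := by
  induction k using Int.induction_on with
  | zero => simp
  | succ i ih =>
    rw [show t + ((i : ℤ) + 1 : ℤ) * T = (t + (i : ℤ) * T) + T by push_cast; ring, x_add, ih,
      zpow_add_one₀ (by norm_num)]
    ring
  | pred i ih =>
    have h1 := x_add (t + ((-(i : ℤ) - 1 : ℤ) : ℝ) * T)
    rw [show t + ((-(i : ℤ) - 1 : ℤ) : ℝ) * T + T = t + ((-(i : ℤ) : ℤ) : ℝ) * T by push_cast; ring,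
      ih] at h1
    have h2 : (-1 : ℝ) ^ (-(i : ℤ)) = (-1 : ℝ) ^ (-(i : ℤ) - 1) * (-1) := by
      rw [← zpow_add_one₀ (by norm_num)]
      congr 1
      ring
    rw [h2] at h1
    linarith

theorem eqn (t : ℝ) : f t = x (t - tau t) := by
  have ht := eq_ps t
  have h0 := ps_nonneg t
  have h1 := ps_lt t
  have hx0 : x (-(Real.pi / 2)) = -1 := by
    have := x_add (-(Real.pi / 2))
    rw [show -(Real.pi / 2) + T = be by unfold T; ring, x2] at this
    linarith
  have e2 : x t = sg t * x (ps t) := by
    conv_lhs => rw [ht]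
    rw [x_int]
    rfl
  unfold f tau f0
  by_cases ha : ps t < al
  · rw [if_pos ha, if_pos ha, sub_zero, e2, x1 (ps t) h0 ha.le]
  · by_cases hb : ps t < be
    · rw [if_neg ha, if_pos hb, if_neg ha, if_pos hb]
      have e : t - (ps t + Real.pi / 2) = -(Real.pi / 2) + ⌊t / T⌋ * T := by linarith
      rw [e, x_int, hx0]
      rfl
    · rw [if_neg ha, if_neg hb, if_neg ha, if_neg hb]
      have e := x_add (t - T)
      rw [sub_add_cancel] at e
      rw [x3 (ps t) (not_lt.1 hb) h1.le] at e2
      have e3 : x (t - T) = -x t := by linarith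
      rw [e3, e2]
      ring

end X112.DE
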